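import Pool.Agent.H24.UG.T7
import Pool.Agent.H51.AG.CHL

/-!
UNIFORM LOCAL GAP (`MP_c59857_nt`), UCL: the choice of the window (adapted from
`Pool/Agent/H51/AG/CHL.lean`).
-/

set_option autoImplicit false

open MeasureTheory Filter Topology Finset

namespace Pool.Agent.H70.UG

open Pool.Agent.H24.UG
open Pool.Agent.H67.AG (avgP ul Inv Rt Av SA kap JJ TT InvZ nxt triv tow XN PN TN XX PX TX prX Fac
  Tup dl Dlt Mis bd κ₀ Sw SwE)
open Pool.Agent.H51.AG (meas_dl dl_bd meas_Av Av_bd)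

theorem pf_UCL (hme : Pool.Agent.H67.AG.T_ME) (hj2 : Pool.Agent.H67.AG.T_J2)
    (hj3 : Pool.Agent.H67.AG.T_J3) : T_UCL := by
  intro c Z W θ hZ hθ
  obtain ⟨hp, _, _, _⟩ := hj2 c.X c.μ Z
  obtain ⟨hT, _⟩ := hj3 c.X c.μ c.T Z c.erg.toMeasurePreserving hZ
  set P := JJ c.μ Z with hP
  set S := TT c.T with hS
  have hk : (0 : ℝ) < c.k := Nat.cast_pos.2 c.kpos
  set δ : ℝ := θ / c.k with hδ
  have hδ0 : 0 < δ := div_pos hθ hk
  have hf : ∀ i, Measurable (dl c.D1 c.D2 i) := meas_dl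
    (fun i => (c.Dm.comp (c.T.measurable.iterate _)).comp measurable_fst)
    (fun i => (c.Dm.comp (c.T.measurable.iterate _)).comp measurable_snd)
  have hb : ∀ i q, |dl c.D1 c.D2 i q| ≤ 1 := fun i q => by
    have := dl_bd c.D1 c.D2 i q
    rw [abs_of_nonneg this.1]
    exact this.2
  have hev : ∀ i : Fin c.k, ∃ L₀ : ℕ, ∀ L, L₀ ≤ L →
      ∫ q, (Av S W L (dl c.D1 c.D2 i) q - (P[dl c.D1 c.D2 i | Inv S W]) q) ^ 2 ∂P < δ ^ 2 := by
    intro i
    have h1 := hme (c.X × c.X) P S W (dl c.D1 c.D2 i) hT (hf i) (hb i)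
    have h2 := h1.eventually (gt_mem_nhds (show (0 : ℝ) < δ ^ 2 by positivity))
    exact eventually_atTop.1 h2
  choose L₀ hL₀ using hev
  refine ⟨∑ i, L₀ i, fun L hL => ?_⟩
  have hc : ∀ i, ∀ᵐ q ∂P, |(P[dl c.D1 c.D2 i | Inv S W]) q| ≤ 1 := fun i =>
    ae_bdd_abs_condExp_of_ae_bdd_abs (Filter.Eventually.of_forall fun q => hb i q)
  have hcm : ∀ i, AEStronglyMeasurable (P[dl c.D1 c.D2 i | Inv S W]) P := fun i =>
    integrable_condExp.aestronglyMeasurable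
  have ham : ∀ i, AEStronglyMeasurable
      (fun q => Av S W L (dl c.D1 c.D2 i) q - (P[dl c.D1 c.D2 i | Inv S W]) q) P := fun i =>
    (meas_Av S W L (hf i)).aestronglyMeasurable.sub (hcm i)
  have hab : ∀ i, ∀ᵐ q ∂P,
      |Av S W L (dl c.D1 c.D2 i) q - (P[dl c.D1 c.D2 i | Inv S W]) q| ≤ 2 := fun i => by
    filter_upwards [hc i] with q hq
    have := Av_bd S W L (hb i) q
    calc _ ≤ |Av S W L (dl c.D1 c.D2 i) q| + |(P[dl c.D1 c.D2 i | Inv S W]) q| := abs_sub _ _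
      _ ≤ 2 := by linarith
  have hi1 : ∀ i, Integrable
      (fun q => |Av S W L (dl c.D1 c.D2 i) q - (P[dl c.D1 c.D2 i | Inv S W]) q|) P := fun i =>
    (Integrable.of_bound (ham i) 2 (by
      filter_upwards [hab i] with q hq
      rw [Real.norm_eq_abs]
      exact hq)).abs
  have hi2 : ∀ i, Integrable
      (fun q => (Av S W L (dl c.D1 c.D2 i) q - (P[dl c.D1 c.D2 i | Inv S W]) q) ^ 2) P := fun i =>
    Integrable.of_bound ((ham i).pow 2) (2 ^ 2) (by
      filter_upwards [hab i] with q hq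
      rw [Real.norm_eq_abs, abs_pow]
      exact pow_le_pow_left₀ (abs_nonneg _) hq 2)
  have hone : ∀ i,
      ∫ q, |Av S W L (dl c.D1 c.D2 i) q - (P[dl c.D1 c.D2 i | Inv S W]) q| ∂P ≤ δ := by
    intro i
    have h1 := hL₀ i L ((Finset.single_le_sum (f := L₀) (fun _ _ => Nat.zero_le _)
      (Finset.mem_univ i)).trans hL)
    have h2 : ∫ q, |Av S W L (dl c.D1 c.D2 i) q - (P[dl c.D1 c.D2 i | Inv S W]) q| ∂P ≤
        ∫ q, (δ / 2 + (1 / (2 * δ)) *
          (Av S W L (dl c.D1 c.D2 i) q - (P[dl c.D1 c.D2 i | Inv S W]) q) ^ 2) ∂P := by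
      refine integral_mono (hi1 i) ((integrable_const _).add ((hi2 i).const_mul _)) fun q => ?_
      show |Av S W L (dl c.D1 c.D2 i) q - (P[dl c.D1 c.D2 i | Inv S W]) q| ≤ _
      set a := Av S W L (dl c.D1 c.D2 i) q - (P[dl c.D1 c.D2 i | Inv S W]) q
      have h3 : δ / 2 + (1 / (2 * δ)) * a ^ 2 - |a| = (δ - |a|) ^ 2 / (2 * δ) := by
        rw [← sq_abs a]
        field_simp
        ring
      have h4 : 0 ≤ (δ - |a|) ^ 2 / (2 * δ) := by positivity
      linarith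
    have h5 : ∫ q, (δ / 2 + (1 / (2 * δ)) *
          (Av S W L (dl c.D1 c.D2 i) q - (P[dl c.D1 c.D2 i | Inv S W]) q) ^ 2) ∂P =
        δ / 2 + (1 / (2 * δ)) *
          ∫ q, (Av S W L (dl c.D1 c.D2 i) q - (P[dl c.D1 c.D2 i | Inv S W]) q) ^ 2 ∂P := by
      rw [integral_add (integrable_const _) ((hi2 i).const_mul _), integral_const_mul,
        integral_const, probReal_univ, one_smul]
    have h6 : (1 / (2 * δ)) *
        ∫ q, (Av S W L (dl c.D1 c.D2 i) q - (P[dl c.D1 c.D2 i | Inv S W]) q) ^ 2 ∂P ≤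
        (1 / (2 * δ)) * δ ^ 2 := mul_le_mul_of_nonneg_left h1.le (by positivity)
    have h7 : (1 / (2 * δ)) * δ ^ 2 = δ / 2 := by
      field_simp
    linarith
  calc ∫ q, |c.dL W L q - Mis P (Inv S W) c.D1 c.D2 q| ∂P
      ≤ ∫ q, ∑ i, |Av S W L (dl c.D1 c.D2 i) q - (P[dl c.D1 c.D2 i | Inv S W]) q| ∂P := by
        refine integral_mono_of_nonneg (Filter.Eventually.of_forall fun q => abs_nonneg _)
          (integrable_finsetSum _ fun i _ => hi1 i) (Filter.Eventually.of_forall fun q => ?_)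
        show |c.dL W L q - Mis P (Inv S W) c.D1 c.D2 q| ≤ _
        rw [CxE.dL, Mis, ← Finset.sum_sub_distrib]
        exact Finset.abs_sum_le_sum_abs _ _
    _ = ∑ i, ∫ q, |Av S W L (dl c.D1 c.D2 i) q - (P[dl c.D1 c.D2 i | Inv S W]) q| ∂P :=
        integral_finsetSum _ fun i _ => hi1 i
    _ ≤ ∑ _i : Fin c.k, δ := Finset.sum_le_sum fun i _ => hone i
    _ = θ := by
        rw [Finset.sum_const, Finset.card_univ, Fintype.card_fin, nsmul_eq_mul, hδ]
        field_simp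

end Pool.Agent.H70.UG
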